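import Pool.Agent.Q99.HT.Stm2

/-!
# Project HT (helper99), job LTd: the derivatives of the potential of a bracket
-/

set_option autoImplicit false

namespace Pool.Agent.Q24.HT

open Pool.Agent.Q99.HT
open Pool.Agent.Q99.KN (LC bb St ct S_LC)

lemma comp_line {F F' : ℂ → ℂ} (h : ∀ x ∈ St, HasDerivAt F (F' x) x) {c : ℂ} (hc : c ∈ St)
    (d : ℂ) : HasDerivAt (fun t : ℂ => F (c + t * d)) (F' c * d) 0 := by
  have h1 : HasDerivAt (fun t : ℂ => c + t * d) d 0 := by
    simpa using ((hasDerivAt_id (0 : ℂ)).mul_const d).const_add c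
  have h2 : HasDerivAt F (F' c) (c + 0 * d) := by
    rw [zero_mul, add_zero]
    exact h c hc
  exact h2.comp (0 : ℂ) h1

theorem task_LTd : S_LTd := by
  rintro ⟨h1, -, -, h4, -⟩ ν ξ hν hξ hνξ a b a' b'
  have e : ∀ t : ℂ, (ν + t * a) - (ξ + t * b) = (ν - ξ) + t * (a - b) := fun t => by ring
  constructor
  · have d1 := comp_line h1 hν a
    have d2 := comp_line h1 hνξ (a - b)
    have d3 := comp_line h1 hξ b
    have d4 := (d1.sub d2).sub d3
    have e1 : bb ν * a - bb (ν - ξ) * (a - b) - bb ξ * b = gT ν ξ a b := by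
      unfold gT
      ring
    rw [e1] at d4
    refine d4.congr_of_eventuallyEq (Filter.Eventually.of_forall fun t => ?_)
    simp only [Pool.Agent.Q99.HT.LT, e, Pi.sub_apply]
  · have d1 := comp_line h4 hν a
    have d2 := comp_line h4 hνξ (a - b)
    have d3 := comp_line h4 hξ b
    have d4 := ((d1.sub d2).const_mul a').add ((d2.sub d3).const_mul b')
    have e1 : a' * (ct ν * a - ct (ν - ξ) * (a - b)) + b' * (ct (ν - ξ) * (a - b) - ct ξ * b) =
        hT ν ξ a b a' b' := by
      unfold hT
      ring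
    rw [e1] at d4
    refine d4.congr_of_eventuallyEq (Filter.Eventually.of_forall fun t => ?_)
    simp only [gT, e, Pi.sub_apply, Pi.add_apply]

end Pool.Agent.Q24.HT
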