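import Pool.Agent.Q99.HT.Stm2
import Pool.Agent.Q210.KN.WG
import Pool.Agent.Q208.KN.LC

/-!
# Project HT (helper99), job TBI: the brackets are values of an analytic function
-/

set_option autoImplicit false

namespace Pool.Agent.Q24.HT

open Finset MeasureTheory
open Pool.Agent.W719.BS (D D_pos D_refl LL)
open Pool.Agent.Q99.HT
open Pool.Agent.Q99.KN (sn bc LC bb Gm St ct S_LC S_GAM)

lemma bb_conj {z : ℂ} (hz : z ∈ St) :
    bb ((starRingEnd ℂ) z) = (starRingEnd ℂ) (bb z) := by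
  have h := Pool.Agent.Q208.KN.sin_slit hz
  have h2 : (2 * Complex.sin (Real.pi * z)).arg ≠ Real.pi := (Complex.mem_slitPlane_iff_arg.1 h).1
  unfold bb
  rw [← Complex.log_conj _ h2, map_mul, ← Complex.sin_conj, map_mul, Complex.conj_ofReal, map_ofNat]

/-- the quantum dilogarithm is positive on the real interval -/
lemma Gm_real (hLC : S_LC) (N : ℕ) {x : ℝ} (h0 : 0 < x) (h1 : x < 1) :
    ∃ r : ℝ, 0 < r ∧ Gm N x = (r : ℂ) := by
  obtain ⟨-, -, h3, -, -⟩ := hLC
  obtain ⟨g, hg⟩ : ∃ g : ℝ → ℝ, g = fun t : ℝ => 2 * (bb (x + Complex.I * t / N)).im /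
    (Real.exp (2 * Real.pi * t) + 1) := ⟨_, rfl⟩
  have hint : ∀ t : ℝ, (bb (x + Complex.I * t / N) - bb (x - Complex.I * t / N)) /
      (Real.exp (2 * Real.pi * t) + 1 : ℝ) = Complex.I * ((g t : ℝ) : ℂ) := by
    intro t
    have hre : ((x : ℂ) + Complex.I * t / N).re = x := by
      have e : Complex.I * (t : ℂ) / N = Complex.I * ((t / N : ℝ) : ℂ) := by
        push_cast
        ring
      rw [e]
      simp
    have hSt : ((x : ℂ) + Complex.I * t / N) ∈ St := by
      constructor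
      · rw [hre]; exact h0
      · rw [hre]; exact h1
    have hc : (x : ℂ) - Complex.I * t / N = (starRingEnd ℂ) ((x : ℂ) + Complex.I * t / N) := by
      rw [map_add, map_div₀, map_mul, Complex.conj_I, Complex.conj_ofReal, Complex.conj_ofReal,
        Complex.conj_natCast]
      ring
    rw [hc, bb_conj hSt, Complex.sub_conj, hg]
    push_cast
    ring
  refine ⟨Real.exp (N * LL x + -(∫ t in Set.Ioi (0:ℝ), g t)), Real.exp_pos _, ?_⟩
  unfold Gm
  have hI : ∫ t in Set.Ioi (0:ℝ), (bb (x + Complex.I * t / N) - bb (x - Complex.I * t / N)) /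
      (Real.exp (2 * Real.pi * t) + 1 : ℝ) = Complex.I * ((∫ t in Set.Ioi (0:ℝ), g t : ℝ) : ℂ) := by
    simp only [hint]
    rw [integral_const_mul, integral_complex_ofReal]
  rw [hI, h3 x h0 h1, Complex.ofReal_exp]
  congr 1
  push_cast
  rw [← mul_assoc, Complex.I_mul_I]
  ring

theorem task_TBI : S_TBI := by
  intro hLC hGAM N k hN ζ hζ
  obtain ⟨-, g2, -, g4⟩ := hGAM hLC
  have hNr : (0 : ℝ) < N := by exact_mod_cast hN
  have hNc : (N : ℂ) ≠ 0 := by exact_mod_cast hNr.ne'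
  have hle := le_abs_self ζ.re
  have hle' := neg_abs_le ζ.re
  have hk0 : (0 : ℝ) ≤ k / N := by positivity
  have hk : 2 * k + 1 ≤ N := by
    have h3 : (k : ℝ) / N < 1 / 2 := by linarith [abs_nonneg ζ.re]
    rw [div_lt_iff₀ hNr] at h3
    have h4 : ((2 * k : ℕ) : ℝ) < N := by push_cast; linarith
    have : 2 * k < N := by exact_mod_cast h4
    omega
  have p1 := Pool.Agent.Q210.KN.prod_half hN g2 k ζ rfl (by linarith) (by linarith)
  have hD := Pool.Agent.Q210.KN.D_sq hN g4 g2 k hk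
  -- `D` is positive
  have hx : (k : ℝ) / N + 1 / (2 * N) < 1 := by
    have : (k : ℝ) / N + 1 / (2 * N) = (2 * k + 1) / (2 * N) := by field_simp
    rw [this, div_lt_one (by positivity)]
    have h5 : (2 * (k : ℝ) + 1) ≤ N := by exact_mod_cast hk
    linarith
  obtain ⟨r, hr, hGr⟩ := Gm_real hLC N (x := (k : ℝ) / N + 1 / (2 * N)) (by positivity) hx
  have hcast : (((k : ℝ) / N + 1 / (2 * N) : ℝ) : ℂ) = (k : ℂ) / N + 1 / (2 * N) := by push_cast; ring
  rw [hcast] at hGr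
  have hDr : D N k = √N * r := by
    have h6 : D N k ^ 2 = (√N * r) ^ 2 := by
      rw [hGr] at hD
      rw [mul_pow, Real.sq_sqrt hNr.le]
      exact_mod_cast hD
    have h7 : 0 < D N k := D_pos N k (by omega)
    exact (pow_left_inj₀ h7.le (by positivity) two_ne_zero).1 h6
  have hre1 : (1 / 2 + ζ / 2 - k / N : ℂ).re = 1 / 2 + ζ.re / 2 - k / N := by
    rw [Complex.sub_re, Complex.add_re, show ((k : ℂ) / N) = ((k / N : ℝ) : ℂ) by push_cast; rfl,
      Complex.ofReal_re]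
    simp
  have n1 : Gm N (1 / 2 + ζ / 2 - k / N) ≠ 0 :=
    Pool.Agent.Q210.KN.Gm_ne g4 ⟨by rw [hre1]; linarith, by rw [hre1]; linarith⟩
  unfold bc TB
  rw [← p1, hGr, hDr]
  have hr' : (r : ℂ) ≠ 0 := by exact_mod_cast hr.ne'
  have hs : ((√N : ℝ) : ℂ) ≠ 0 := by
    exact_mod_cast (Real.sqrt_pos.2 hNr).ne'
  obtain ⟨P, hP⟩ : ∃ P, P = ∏ j ∈ range k, sn N ((N - 1 + N * ζ) / 2 - j) := ⟨_, rfl⟩
  rw [← hP, Complex.ofReal_mul, div_eq_div_iff (mul_ne_zero hs hr')
    (mul_ne_zero (mul_ne_zero hs n1) hr')]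
  ring

end Pool.Agent.Q24.HT
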